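import Mathlib
import Pool.Agent.W245.DensityExt
import Pool.Agent.W245.Small

/-!
# Singular matrices of logarithms: almost all extensions of a good space are good

Let `V` be a finite dimensional rational space of complex numbers such that the assertion Q1 of
`MP_1f047c_nt` holds for all matrices (of all sizes) with entries in `V`; this is the case for
`V = 0` and for every space of logarithms of algebraic numbers of dimension at most two.  Then for
almost all `k`-tuples `(a_1, ..., a_k)` of positive integers the space
`V + ℚ log a_1 + ... + ℚ log a_k` has dimension `dim V + k`, and the assertion Q1 holds for all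
matrices of all sizes with entries in it.

The proof: a singular pencil `M_0 + X N` of matrices with entries in `V` and rational `N` which
vanishes identically can be reduced to a smaller singular matrix with entries in `V`
(`Pool.Agent.W245.Extend`), matrices larger than the dimension of the space are harmless, and for
almost all integers `b` the number `log b` satisfies no nontrivial polynomial relation of bounded
degree over a given finite dimensional `ℚ̄`-space (`Pool.Agent.W245.DensityExt`, which uses Baker's
theorem and the dense multiplicative cubes of `Pool.Agent.H297R2`).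
-/

namespace Pool.Agent.Results.MP_1f047c_nt.AlmostAllExtensions

open Module

/-- Every singular square matrix, of any size, with entries in `V` satisfies the conclusion of
Q1. -/
def Q1Holds (V : Submodule ℚ ℂ) : Prop :=
  ∀ n : ℕ, 1 ≤ n → ∀ M : Matrix (Fin n) (Fin n) ℂ, (∀ i j, M i j ∈ V) → M.det = 0 →
    ∃ w v : Fin n → ℚ, w ≠ 0 ∧ v ≠ 0 ∧ ∑ i, ∑ j, (w i : ℂ) * M i j * (v j : ℂ) = 0

/-- `V` consists of logarithms of (nonzero) algebraic numbers. -/
def IsLogSpace (V : Submodule ℚ ℂ) : Prop := ∀ x ∈ V, IsAlgebraic ℚ (Complex.exp x)

open Classical in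
/-- **Main result.** -/
theorem result (m k : ℕ) (ε : ℝ) (hε : 0 < ε) :
    ∃ x₀ : ℕ, ∀ x ≥ x₀, ∀ V : Submodule ℚ ℂ, Module.Finite ℚ V → finrank ℚ V ≤ m →
      (Q1Holds V ∨ (finrank ℚ V ≤ 2 ∧ IsLogSpace V)) →
      (((Fintype.piFinset fun _ : Fin k => Finset.Icc 1 x).filter fun a =>
        ¬ (Q1Holds (V ⊔ Submodule.span ℚ (Set.range fun i => (Real.log (a i) : ℂ))) ∧
          finrank ℚ (V ⊔ Submodule.span ℚ (Set.range fun i => (Real.log (a i) : ℂ)) :
            Submodule ℚ ℂ) = finrank ℚ V + k)).card : ℝ) ≤ ε * (x : ℝ) ^ k := by
  obtain ⟨x₀, hx₀⟩ := Pool.Agent.W245.density_ext k m ε hε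
  refine ⟨x₀, fun x hx V hVf hVm hV => ?_⟩
  have hV' : Pool.Agent.W245.SingularHasZero V := by
    rcases hV with h | ⟨h2, h3⟩
    · exact h
    · exact Pool.Agent.W245.singularHasZero_small V h3 h2
  refine le_trans (le_of_eq ?_) (hx₀ x hx V hVf hVm hV')
  congr 2
  ext a
  rw [Finset.mem_filter, Finset.mem_filter]
  exact Iff.rfl

end Pool.Agent.Results.MP_1f047c_nt.AlmostAllExtensions
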