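import Mathlib
import Pool.Agent.W245.InfExt
import Pool.Agent.W245.Small

/-!
# Singular matrices of logarithms: infinite dimensional spaces

Every infinite dimensional rational space `Λ` of logarithms of algebraic numbers contains
`ℚ`-linearly independent elements `l_0, l_1, ...` such that the assertion Q1 of `MP_1f047c_nt` holds
for all matrices of all sizes with entries in the infinite dimensional space they span; moreover
the sequence can be chosen so that this remains true after adding to this space any given finite
dimensional space for which the assertion holds.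

The proof uses Baker's theorem (`Pool.Agent.H297R2.BakerThm`), evaluation determinants over a
finite dimensional `ℚ̄`-space of coefficients (`Pool.Agent.W245.CubeOver`), and the reduction of
identically singular pencils (`Pool.Agent.W245.Extend`).
-/

namespace Pool.Agent.Results.MP_1f047c_nt.InfiniteSubspaces

open Module

/-- Every singular square matrix, of any size, with entries in `V` satisfies the conclusion of
Q1. -/
def Q1Holds (V : Submodule ℚ ℂ) : Prop :=
  ∀ n : ℕ, 1 ≤ n → ∀ M : Matrix (Fin n) (Fin n) ℂ, (∀ i j, M i j ∈ V) → M.det = 0 →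
    ∃ w v : Fin n → ℚ, w ≠ 0 ∧ v ≠ 0 ∧ ∑ i, ∑ j, (w i : ℂ) * M i j * (v j : ℂ) = 0

/-- `V` consists of logarithms of (nonzero) algebraic numbers. -/
def IsLogSpace (V : Submodule ℚ ℂ) : Prop := ∀ x ∈ V, IsAlgebraic ℚ (Complex.exp x)

/-- **Main result.** -/
theorem result (Λ : Submodule ℚ ℂ) (hlog : IsLogSpace Λ) (hΛ : ¬ Module.Finite ℚ Λ)
    (V : Submodule ℚ ℂ) (hfin : Module.Finite ℚ V)
    (hV : Q1Holds V ∨ (finrank ℚ V ≤ 2 ∧ IsLogSpace V)) :
    ∃ l : ℕ → ℂ, (∀ i, l i ∈ Λ) ∧ (∀ i, l i ∉ V ⊔ Submodule.span ℚ (l '' Set.Iio i)) ∧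
      Q1Holds (V ⊔ Submodule.span ℚ (Set.range l)) := by
  have hV' : Pool.Agent.W245.SingularHasZero V := by
    rcases hV with h | ⟨h2, h3⟩
    · exact h
    · exact Pool.Agent.W245.singularHasZero_small V h3 h2
  exact Pool.Agent.W245.exists_infinite Λ hΛ hlog V hV'

end Pool.Agent.Results.MP_1f047c_nt.InfiniteSubspaces
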