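import Mathlib
import Pool.Agent.W245.PB.Gen
import Pool.Agent.W245.PB.PLog

/-!
# Singular matrices of `p`-adic logarithms: almost all extensions of a good space are good

Let `V` be a finite dimensional rational subspace of the algebraic closure of `ℚ_p` such that the
assertion Q2 of `MP_1f047c_nt` holds for all matrices (of all sizes) with entries in `V`; this is
the case for `V = 0` and for every space of `p`-adic logarithms of algebraic numbers of dimension
at most two.  Then for almost all `k`-tuples `(a_1, ..., a_k)` of positive integers the space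
`V + ℚ log_p a_1 + ... + ℚ log_p a_k` has dimension `dim V + k`, and the assertion Q2 holds for all
matrices of all sizes with entries in it.  This is uniform in `V` and in the prime `p`.

The proof contains a complete proof of Brumer's theorem, the `p`-adic version of Baker's theorem
(`Pool.Agent.W245.PB.BakerThmP`).
-/

namespace Pool.Agent.Results.MP_1f047c_nt.PadicExtensions

open Module

/-- `L` is the Iwasawa `p`-adic logarithm on the algebraic closure of `ℚ_p`. -/
def IsIwasawaLog (p : ℕ) [Fact p.Prime] (L : PadicAlgCl p → PadicAlgCl p) : Prop :=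
  (∀ x y : PadicAlgCl p, x ≠ 0 → y ≠ 0 → L (x * y) = L x + L y) ∧
  L ((p : ℕ) : PadicAlgCl p) = 0 ∧
  ∀ z : PadicAlgCl p, ‖z‖ < 1 →
    HasSum (fun n : ℕ => (-1 : PadicAlgCl p) ^ n * z ^ (n + 1) / ((n : PadicAlgCl p) + 1))
      (L (1 + z))

/-- Every singular square matrix, of any size, with entries in `V` satisfies the conclusion of
Q2. -/
def Q2Holds {p : ℕ} [Fact p.Prime] (V : Submodule ℚ (PadicAlgCl p)) : Prop :=
  ∀ n : ℕ, 1 ≤ n → ∀ M : Matrix (Fin n) (Fin n) (PadicAlgCl p), (∀ i j, M i j ∈ V) → M.det = 0 →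
    ∃ w v : Fin n → ℚ, w ≠ 0 ∧ v ≠ 0 ∧
      ∑ i, ∑ j, (w i : PadicAlgCl p) * M i j * (v j : PadicAlgCl p) = 0

/-- `V` consists of `p`-adic logarithms of nonzero algebraic numbers. -/
def IsLogSpace {p : ℕ} [Fact p.Prime] (L : PadicAlgCl p → PadicAlgCl p)
    (V : Submodule ℚ (PadicAlgCl p)) : Prop :=
  ∀ x ∈ V, ∃ α : PadicAlgCl p, α ≠ 0 ∧ IsAlgebraic ℚ α ∧ x = L α

theorem small_of_logs {p : ℕ} [Fact p.Prime] {L : PadicAlgCl p → PadicAlgCl p}
    (hL : Pool.Agent.W245.PB.IsIwasawaLog p L) (V : Submodule ℚ (PadicAlgCl p))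
    [Module.Finite ℚ V] (hV : IsLogSpace L V) (h2 : finrank ℚ V ≤ 2) :
    Pool.Agent.W245.SingularHasZero V := by
  apply Pool.Agent.W245.PB.gen_small V _ h2
  intro x hx y hy hli halg
  have h1 := hL.indep_of_indep ![x, y] (by
    intro i
    fin_cases i
    · exact hV x hx
    · exact hV y hy) hli
  have hy0 : y ≠ 0 := by
    have := hli.ne_zero 1
    simpa using this
  rw [LinearIndependent.pair_iff] at h1
  have h3 := h1 (-1) ⟨x / y, mem_algebraicClosure_iff.2 halg⟩ (by
    rw [Algebra.smul_def, Algebra.smul_def]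
    change algebraMap _ (PadicAlgCl p) (-1) * x + (x / y) * y = 0
    rw [map_neg, map_one]
    field_simp
    ring)
  exact absurd h3.1 (by simp)

open Classical in
/-- **Main result.** -/
theorem result (m k : ℕ) (ε : ℝ) (hε : 0 < ε) :
    ∃ x₀ : ℕ, ∀ x ≥ x₀, ∀ (p : ℕ) [Fact p.Prime] (L : PadicAlgCl p → PadicAlgCl p),
      IsIwasawaLog p L → ∀ V : Submodule ℚ (PadicAlgCl p), Module.Finite ℚ V →
      finrank ℚ V ≤ m → (Q2Holds V ∨ (finrank ℚ V ≤ 2 ∧ IsLogSpace L V)) →
      (((Fintype.piFinset fun _ : Fin k => Finset.Icc 1 x).filter fun a =>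
        ¬ (Q2Holds (V ⊔ Submodule.span ℚ (Set.range fun i => L (a i : PadicAlgCl p))) ∧
          finrank ℚ (V ⊔ Submodule.span ℚ (Set.range fun i => L (a i : PadicAlgCl p)) :
            Submodule ℚ (PadicAlgCl p)) = finrank ℚ V + k)).card : ℝ) ≤ ε * (x : ℝ) ^ k := by
  obtain ⟨x₀, hx₀⟩ := Pool.Agent.W245.PB.density_goodZ k m ε hε
  refine ⟨x₀, fun x hx p _ L hL V hVf hVm hV => ?_⟩
  have hL' : Pool.Agent.W245.PB.IsIwasawaLog p L := ⟨hL.1, hL.2.1, hL.2.2⟩
  have hV' : Pool.Agent.W245.SingularHasZero V := by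
    rcases hV with h | ⟨h2, h3⟩
    · exact h
    · exact small_of_logs hL' V h3 h2
  apply hx₀ x hx (Pool.Agent.W245.PB.QbarP p) (PadicAlgCl p) (fun n : ℕ => L (n : PadicAlgCl p))
    hL'.logLike V hVf hVm hV'
  · intro a ha
    exact (Finset.mem_filter.1 ha).1
  · intro a ha hgood
    apply (Finset.mem_filter.1 ha).2
    exact ⟨hgood.1, hgood.2⟩

end Pool.Agent.Results.MP_1f047c_nt.PadicExtensions
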