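import Mathlib
import Pool.Agent.W245.PB.Inf
import Pool.Agent.W245.PB.PSmall

/-!
# Singular matrices of `p`-adic logarithms: infinite dimensional spaces

Every infinite dimensional rational space `Λ` of `p`-adic logarithms of algebraic numbers contains
`ℚ`-linearly independent elements `l_0, l_1, …` such that the assertion Q2 of `MP_1f047c_nt` holds
for all matrices of all sizes with entries in the infinite dimensional space they span; moreover
the sequence can be chosen so that this remains true after adding to this space any given finite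
dimensional space for which the assertion holds (for instance any two given `p`-adic logarithms).

The proof contains a complete proof of Brumer's theorem, the `p`-adic version of Baker's theorem
(`Pool.Agent.W245.PB.BakerThmP`).
-/

namespace Pool.Agent.Results.MP_1f047c_nt.PadicInfinite

open Module

/-- `L` is the Iwasawa `p`-adic logarithm on the algebraic closure of `ℚ_p`. -/
def IsIwasawaLog (p : ℕ) [Fact p.Prime] (L : PadicAlgCl p → PadicAlgCl p) : Prop :=
  (∀ x y : PadicAlgCl p, x ≠ 0 → y ≠ 0 → L (x * y) = L x + L y) ∧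
  L ((p : ℕ) : PadicAlgCl p) = 0 ∧
  ∀ z : PadicAlgCl p, ‖z‖ < 1 →
    HasSum (fun n : ℕ => (-1 : PadicAlgCl p) ^ n * z ^ (n + 1) / ((n : PadicAlgCl p) + 1))
      (L (1 + z))

/-- Every singular square matrix, of any size, with entries in `V` satisfies the conclusion of
Q2. -/
def Q2Holds {p : ℕ} [Fact p.Prime] (V : Submodule ℚ (PadicAlgCl p)) : Prop :=
  ∀ n : ℕ, 1 ≤ n → ∀ M : Matrix (Fin n) (Fin n) (PadicAlgCl p), (∀ i j, M i j ∈ V) → M.det = 0 →
    ∃ w v : Fin n → ℚ, w ≠ 0 ∧ v ≠ 0 ∧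
      ∑ i, ∑ j, (w i : PadicAlgCl p) * M i j * (v j : PadicAlgCl p) = 0

/-- `V` consists of `p`-adic logarithms of nonzero algebraic numbers. -/
def IsLogSpace {p : ℕ} [Fact p.Prime] (L : PadicAlgCl p → PadicAlgCl p)
    (V : Submodule ℚ (PadicAlgCl p)) : Prop :=
  ∀ x ∈ V, ∃ α : PadicAlgCl p, α ≠ 0 ∧ IsAlgebraic ℚ α ∧ x = L α

/-- **Main result.** -/
theorem result (p : ℕ) [Fact p.Prime] (L : PadicAlgCl p → PadicAlgCl p) (hL : IsIwasawaLog p L)
    (Λ : Submodule ℚ (PadicAlgCl p)) (hlog : IsLogSpace L Λ) (hΛ : ¬ Module.Finite ℚ Λ)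
    (V : Submodule ℚ (PadicAlgCl p)) (hfin : Module.Finite ℚ V)
    (hV : Q2Holds V ∨ (finrank ℚ V ≤ 2 ∧ IsLogSpace L V)) :
    ∃ l : ℕ → PadicAlgCl p, (∀ i, l i ∈ Λ) ∧
      (∀ i, l i ∉ V ⊔ Submodule.span ℚ (l '' Set.Iio i)) ∧
      Q2Holds (V ⊔ Submodule.span ℚ (Set.range l)) := by
  have hL' : Pool.Agent.W245.PB.IsIwasawaLog p L := ⟨hL.1, hL.2.1, hL.2.2⟩
  have hV' : Pool.Agent.W245.SingularHasZero V := by
    rcases hV with h | ⟨h2, h3⟩
    · exact h
    · exact Pool.Agent.W245.PB.small_of_logs hL' V h3 h2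
  exact Pool.Agent.W245.PB.infinite_goodZ (κ := Pool.Agent.W245.PB.QbarP p) Λ hΛ
    (fun r w hw hli => hL'.indep_of_indep w (fun i => hlog _ (hw i)) hli) V hV'

end Pool.Agent.Results.MP_1f047c_nt.PadicInfinite
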